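import Mathlib
import Pool.Agent.Helper16.HR.Stmts

set_option autoImplicit false

namespace Pool.Helper16.HR

lemma ackb_pow (j : ℕ) : ∀ K : ℕ, 2 ^ K ≤ Ack j K := by
  induction j with
  | zero => intro K; exact le_of_eq (by rw [Ack])
  | succ j ih =>
    intro K
    induction K with
    | zero => exact le_of_eq (by rw [Ack, pow_zero])
    | succ K ihK =>
      rw [Ack]
      refine le_trans ?_ (ih _)
      refine Nat.pow_le_pow_right (by norm_num) ?_
      have h1 : K < 2 ^ K := Nat.lt_two_pow_self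
      omega

lemma ackb_succ (j K : ℕ) : 2 ^ Ack (j + 1) K ≤ Ack (j + 1) (K + 1) := by
  conv_rhs => rw [Ack]
  exact ackb_pow j _

lemma ackb_mono (j : ℕ) : Monotone (Ack j) := by
  cases j with
  | zero =>
    intro a b hab
    rw [Ack, Ack]
    exact Nat.pow_le_pow_right (by norm_num) hab
  | succ j =>
    refine monotone_nat_of_le_succ fun K => ?_
    exact (Nat.lt_two_pow_self).le.trans (ackb_succ j K)

lemma ackb_iter (j M : ℕ) : ∀ k : ℕ, (Ack j)^[k] (Ack (j + 1) M) = Ack (j + 1) (M + k) := by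
  intro k
  induction k with
  | zero => rfl
  | succ k ih =>
    rw [Function.iterate_succ_apply', ih]
    conv_rhs => rw [← add_assoc, Ack]

lemma ackb_iter_mono (j : ℕ) (k : ℕ) : Monotone ((Ack j)^[k]) := (ackb_mono j).iterate k

lemma ackb_phi (hE : ST_EXP) (q : ℕ) (hq : 1 ≤ q) (X K : ℕ) (F : ℕ → ℕ) (hX : F K = X)
    (hX1 : 4096 * q ^ 4 ≤ X) : Phi q F K ≤ 2 ^ (2 ^ X) := by
  have hq4 : q ≤ q ^ 4 := Nat.le_self_pow (by norm_num) q
  have hXq : q + 2 ≤ X := by omega
  have h1 : X + Neta q X ≤ 2 ^ X := by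
    refine le_trans ?_ (hE q X hX1)
    refine le_trans ?_ (Nat.pow_le_pow_right (by omega) (show 2 * Eq' q + 2 ≤ 24 * q ^ 2 from ?_))
    · unfold Neta
      have h2 : X ≤ X ^ (2 * Eq' q) := Nat.le_self_pow (by unfold Eq'; omega) X
      have h3 : (q + 2) * X ^ (2 * Eq' q) ≤ X ^ (2 * Eq' q + 2) := by
        rw [pow_add, mul_comm]
        refine Nat.mul_le_mul_left _ ?_
        exact hXq.trans (Nat.le_self_pow (by norm_num) X)
      rw [add_mul] at h3
      omega
    · unfold Eq'
      nlinarith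
  unfold Phi
  rw [hX]
  calc X * 2 ^ Neta q X ≤ 2 ^ X * 2 ^ Neta q X := Nat.mul_le_mul_right _ Nat.lt_two_pow_self.le
    _ = 2 ^ (X + Neta q X) := by rw [pow_add]
    _ ≤ 2 ^ (2 ^ X) := Nat.pow_le_pow_right (by norm_num) h1

theorem st_ACKB (hE : ST_EXP) (hF : ST_MONF) : ST_ACKB := by
  intro q hq
  have hq4 : q ≤ q ^ 4 := Nat.le_self_pow (by norm_num) q
  intro j
  induction j with
  | zero =>
    intro M hM
    rw [Fq, Ack]
    exact (Nat.le_self_pow (by omega) M).trans Nat.lt_two_pow_self.le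
  | succ j ih =>
    have hphi : ∀ K, 4096 * q ^ 4 ≤ K → Phi q (Fq q j) K ≤ Ack j (Ack j K) := by
      intro K hK
      have hKX : K ≤ Fq q j K := (hF q j).1 K
      have h1 := ackb_phi hE q hq (Fq q j K) K (Fq q j) rfl (hK.trans hKX)
      refine h1.trans ?_
      cases j with
      | zero => exact le_of_eq (by rw [Fq, Ack, Ack])
      | succ i =>
        have h2 : 2 ^ (2 ^ Fq q (i + 1) K) ≤ Ack (i + 1) (K ^ (2 * Gq q + 6) + 2) := by
          refine le_trans ?_ (ackb_succ i _)
          refine Nat.pow_le_pow_right (by norm_num) ?_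
          refine le_trans ?_ (ackb_succ i _)
          exact Nat.pow_le_pow_right (by norm_num) (ih K hK)
        refine h2.trans (ackb_mono (i + 1) ?_)
        refine le_trans ?_ (ackb_pow (i + 1) K)
        refine le_trans ?_ (hE q K hK)
        refine le_trans ?_ (Nat.pow_le_pow_right (by omega)
          (show 2 * Gq q + 6 + 1 ≤ 24 * q ^ 2 from ?_))
        · rw [pow_succ K (2 * Gq q + 6)]
          have h3 : 1 ≤ K ^ (2 * Gq q + 6) := Nat.one_le_pow _ _ (by omega)
          have h4 : K ^ (2 * Gq q + 6) * 3 ≤ K ^ (2 * Gq q + 6) * K :=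
            Nat.mul_le_mul_left _ (by omega)
          omega
        · unfold Gq
          nlinarith
    have hit : ∀ M, 4096 * q ^ 4 ≤ M → ∀ n : ℕ, M ≤ (Phi q (Fq q j))^[n] M ∧
        (Phi q (Fq q j))^[n] M ≤ (Ack j)^[2 * n] M := by
      intro M hM n
      induction n with
      | zero => exact ⟨le_refl _, le_refl _⟩
      | succ n ihn =>
        obtain ⟨ih1, ih2⟩ := ihn
        rw [Function.iterate_succ_apply']
        constructor
        · refine ih1.trans ?_
          unfold Phi
          refine ((hF q j).1 _).trans ?_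
          exact Nat.le_mul_of_pos_right _ (by positivity)
        · refine (hphi _ (hM.trans ih1)).trans ?_
          rw [show 2 * (n + 1) = 2 * n + 1 + 1 by ring, Function.iterate_succ_apply',
            Function.iterate_succ_apply']
          exact ackb_mono j (ackb_mono j ih2)
    intro M hM
    rw [Fq]
    refine (hit M hM _).2.trans ?_
    have h5 : M ≤ Ack (j + 1) M := Nat.lt_two_pow_self.le.trans (ackb_pow (j + 1) M)
    refine (ackb_iter_mono j _ h5).trans ?_
    rw [ackb_iter]
    refine ackb_mono (j + 1) ?_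
    unfold Nbet
    have h6 : M ≤ M ^ (2 * Gq q + 3) := Nat.le_self_pow (by omega) M
    have h7 : (2 * q + 5) * M ^ (2 * Gq q + 3) ≤ M ^ (2 * Gq q + 6) := by
      rw [show 2 * Gq q + 6 = 2 * Gq q + 3 + 3 by ring, pow_add M (2 * Gq q + 3) 3, mul_comm]
      refine Nat.mul_le_mul_left _ ?_
      exact (show 2 * q + 5 ≤ M by omega).trans (Nat.le_self_pow (by norm_num) M)
    rw [add_mul, mul_assoc] at h7
    omega

end Pool.Helper16.HR
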