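import Mathlib
import Pool.Agent.Helper16.HR.Stmts

set_option autoImplicit false

namespace Pool.Helper16.HR

open Finset

open Classical in
lemma ninj_pair (h n : ℕ) (i j : Fin h) (hij : i ≠ j) :
    ((univ : Finset (Fin h → Fin n)).filter (fun φ => φ i = φ j)).card * n ≤ n ^ h := by
  have h1 : (((univ : Finset (Fin h → Fin n)).filter (fun φ => φ i = φ j)) ×ˢ
      (univ : Finset (Fin n))).card ≤ (univ : Finset (Fin h → Fin n)).card := by
    refine Finset.card_le_card_of_injOn (fun q => Function.update q.1 i q.2)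
      (fun _ _ => Finset.mem_coe.2 (mem_univ _)) ?_
    rintro ⟨φ, a⟩ hφ ⟨ψ, b⟩ hψ heq
    rw [Finset.mem_coe, mem_product, mem_filter] at hφ hψ
    have h2 : φ i = φ j := hφ.1.2
    have h3 : ψ i = ψ j := hψ.1.2
    have heq' : Function.update φ i a = Function.update ψ i b := heq
    have h4 : ∀ k, k ≠ i → φ k = ψ k := by
      intro k hk
      have h5 := congrFun heq' k
      rwa [Function.update_of_ne hk, Function.update_of_ne hk] at h5
    have h6 : a = b := by
      have h5 := congrFun heq' i
      rwa [Function.update_self, Function.update_self] at h5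
    have h7 : φ = ψ := by
      funext k
      by_cases hk : k = i
      · rw [hk, h2, h3]
        exact h4 j hij.symm
      · exact h4 k hk
    rw [h6, h7]
  rw [card_product, card_univ, card_univ, Fintype.card_fin, Fintype.card_fun, Fintype.card_fin,
    Fintype.card_fin] at h1
  exact h1

theorem st_NINJ : ST_NINJ := by
  classical
  intro h n hn
  have h1 : 2 * ((univ : Finset (Fin h → Fin n)).filter
      (fun φ => ¬ Function.Injective φ)).card ≤
      ∑ φ : Fin h → Fin n, ∑ p : Fin h × Fin h,
        (if p.1 ≠ p.2 ∧ φ p.1 = φ p.2 then 1 else 0) := by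
    rw [card_eq_sum_ones, mul_sum, sum_filter]
    refine sum_le_sum fun φ _ => ?_
    by_cases hφ : Function.Injective φ
    · rw [if_neg (not_not.2 hφ)]
      exact Nat.zero_le _
    · rw [if_pos hφ]
      have h2 : ∃ i j, i ≠ j ∧ φ i = φ j := by
        by_contra hcon
        push Not at hcon
        refine hφ fun i j hij => ?_
        by_contra hne
        exact hcon i j hne hij
      obtain ⟨i, j, hij, h3⟩ := h2
      rw [← card_filter]
      have h4 : ({(i, j), (j, i)} : Finset (Fin h × Fin h)) ⊆
          univ.filter (fun p : Fin h × Fin h => p.1 ≠ p.2 ∧ φ p.1 = φ p.2) := by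
        intro p hp
        rw [mem_insert, mem_singleton] at hp
        rw [mem_filter]
        rcases hp with rfl | rfl
        · exact ⟨mem_univ _, hij, h3⟩
        · exact ⟨mem_univ _, hij.symm, h3.symm⟩
      have h5 : ({(i, j), (j, i)} : Finset (Fin h × Fin h)).card = 2 := by
        rw [card_pair]
        intro h6
        exact hij (Prod.mk.inj h6).1
      have h6 := card_le_card h4
      rw [h5] at h6
      omega
  rw [sum_comm] at h1
  have h2 : ∀ p : Fin h × Fin h, (∑ φ : Fin h → Fin n,
      (if p.1 ≠ p.2 ∧ φ p.1 = φ p.2 then 1 else 0)) * n ≤ n ^ h := by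
    intro p
    by_cases hp : p.1 ≠ p.2
    · have h3 := ninj_pair h n p.1 p.2 hp
      rw [card_filter] at h3
      refine le_trans (le_of_eq ?_) h3
      refine congrArg (fun x => x * n) (sum_congr rfl fun φ _ => ?_)
      simp [hp]
    · have h3 : (∑ φ : Fin h → Fin n,
        (if p.1 ≠ p.2 ∧ φ p.1 = φ p.2 then 1 else 0)) = 0 :=
        sum_eq_zero fun φ _ => by simp [hp]
      rw [h3, zero_mul]
      exact Nat.zero_le _
  calc 2 * ((univ : Finset (Fin h → Fin n)).filter (fun φ => ¬ Function.Injective φ)).card * n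
      ≤ (∑ p : Fin h × Fin h, ∑ φ : Fin h → Fin n,
        (if p.1 ≠ p.2 ∧ φ p.1 = φ p.2 then 1 else 0)) * n := Nat.mul_le_mul_right _ h1
    _ = ∑ p : Fin h × Fin h, (∑ φ : Fin h → Fin n,
        (if p.1 ≠ p.2 ∧ φ p.1 = φ p.2 then 1 else 0)) * n := by rw [sum_mul]
    _ ≤ ∑ p : Fin h × Fin h, n ^ h := sum_le_sum fun p _ => h2 p
    _ = h ^ 2 * n ^ h := by
      rw [sum_const, card_univ, Fintype.card_prod, Fintype.card_fin, smul_eq_mul]
      ring

end Pool.Helper16.HR
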